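import Pool.Agent.Helper96.NSF.MChain
import Pool.Agent.Helper35.ZZ.CHN

/-! # Packet CHM: the chain with marks -/

open scoped ENNReal
open Finset

namespace Pool.Agent.Helper65.NSF

open Pool.Agent.Helper92.Eps
open Pool.Agent.Helper99.ZZ
open Pool.Agent.Helper96.NSF
open Pool.Agent.Helper35.ZZ (Kf Kf_le BndA_mono BndC_mono iv_le)

/-- The number of the effective marks. -/
def Nm {Δ : Type} (md : Bool) : List (Δ × Bool) → Bool → ℕ
  | [], _ => 0
  | d :: ds, a => Nm md ds (!a) + (if d.2 = true ∧ md = a then 1 else 0)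

theorem Nm_add {Δ : Type} (md : Bool) (ds : List (Δ × Bool)) : ∀ a : Bool,
    Nm md ds a + Nm md ds (!a) = (ds.filter (fun d => d.2)).length := by
  induction ds with
  | nil => intro a; rfl
  | cons d ds ih =>
    intro a
    have h := ih (!a)
    obtain ⟨d1, d2⟩ := d
    cases d2 <;> cases md <;> cases a <;> simp [Nm] at h ⊢ <;> omega

theorem FC_mono {B : Type} {D : ℕ} {A : Alph B D} {J r : ℕ} {F : List B → ℝ≥0∞} {K K' : ℝ≥0∞}
    (h : FC A J r F K) (hK : K ≤ K') : FC A J r F K' :=
  ⟨fun p h1 h2 h3 => (h.1 p h1 h2 h3).trans (by gcongr), fun q h1 h2 => (h.2 q h1 h2).trans hK⟩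

section
variable {B Δ ι : Type} [Fintype ι] {D : ℕ} (A : Alph B D) (E : ℕ → List B → List B → Prop)
  (rb : List B → List B) (ok : Δ → List B → Prop) (dep : Δ → ℕ) (F : ι → List B → List B)
  (Gd Bd : List B → Prop) (q : ℝ≥0∞) (J : ℕ) (Θ : ℝ≥0∞) (md : Bool)

theorem GM_nil (a : Bool) (r : ℕ) : GM A E rb ok dep F Gd Bd q J Θ md [] a r = fun _ => 1 := by
  funext p
  rw [GM]

theorem GM_mark_true {d : Δ × Bool} (ds : List (Δ × Bool)) (r : ℕ) (h : md = true ∧ d.2 = true) :
    GM A E rb ok dep F Gd Bd q J Θ md (d :: ds) true r = fun p =>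
      ⨆ μ : TM F Gd q, GS A r (fun p' => iv (Bd p' ∨ μ.1 p') (ker A E J Θ true r p p' *
        RF A rb ok dep d.1 (GM A E rb ok dep F Gd Bd q J Θ md ds false (dep d.1)) p')) := by
  funext p
  rw [GM, if_pos ⟨h.1, h.2, rfl⟩]

theorem GM_mark_false {d : Δ × Bool} (ds : List (Δ × Bool)) (r : ℕ)
    (h : md = false ∧ d.2 = true) :
    GM A E rb ok dep F Gd Bd q J Θ md (d :: ds) false r = fun p =>
      GS A r (fun p' => ker A E J Θ false r p p' * ⨆ μ : TM F Gd q, RM A rb ok dep Bd μ.1 d.1
        (GM A E rb ok dep F Gd Bd q J Θ md ds true (dep d.1)) p') := by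
  funext p
  rw [GM, if_neg (by simp [h.1]), if_pos ⟨h.1, h.2, rfl⟩]

theorem GM_free {d : Δ × Bool} (ds : List (Δ × Bool)) (a : Bool) (r : ℕ)
    (h : ¬ (d.2 = true ∧ md = a)) :
    GM A E rb ok dep F Gd Bd q J Θ md (d :: ds) a r = fun p =>
      GS A r (fun p' => ker A E J Θ a r p p' *
        RF A rb ok dep d.1 (GM A E rb ok dep F Gd Bd q J Θ md ds (!a) (dep d.1)) p') := by
  funext p
  rw [GM, if_neg (fun h' => h ⟨h'.2.1, h'.1.trans h'.2.2.symm⟩),
    if_neg (fun h' => h ⟨h'.2.1, h'.1.trans h'.2.2.symm⟩)]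

end

theorem CHM (hSQM : SQM_stmt) (hSTM : STM_stmt) (hSTPA : STPA_stmt) (hSTPC : STPC_stmt)
    (hBAS : BAS_stmt) (_hGSB : GSB_stmt) : CHM_stmt := by
  intro B Δ ι _ _ D A E rb ok dep F Gd Bd q δ hC hR hE hrb J c0 Θ L P V M md hΘ hΘ' hL hP hP0 hJ
    hc0 hfl hgd hcs hmb ds hmv hds
  have h0 : DepOK J 0 := Or.inl rfl
  obtain ⟨hS1, hS2⟩ := hSTM A E rb ok dep F Gd Bd q δ hC hR hE hrb J c0 Θ hfl hgd
  set K : List (Δ × Bool) → ℕ → ℝ≥0∞ :=
    Kf L P (fun d : Δ × Bool => V d.1) (fun d => M d.1) (fun d => dep d.1) with hK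
  have hKc : ∀ (d : Δ × Bool) (ds : List (Δ × Bool)) (r : ℕ),
      K (d :: ds) r = 2 * M d.1 * L r * (V d.1 * P r) * K ds (dep d.1) := fun _ _ _ => rfl
  -- the properties of the legs
  let LP : Δ × Bool → Prop := fun d => 1 ≤ M d.1 ∧ (∀ l, ok d.1 l → 3 * 2 ^ J < A.H l) ∧
    (∀ ε l, ok d.1 l → Gd (rb l) → ok d.1 (rb (F ε (rb l)))) ∧ ∀ r, DepOK J r →
    LegP A rb ok dep J r d.1 (V d.1 * P r) (M d.1)
  have hdeep : ∀ r, 2 ^ (J - 1) ≤ r → c0 ≤ r ∧ 1 ≤ r := fun r hr =>
    ⟨hc0.trans hr, Nat.one_le_two_pow.trans hr⟩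
  -- one step with the kernel `C`
  have stepC : ∀ (d : Δ × Bool) (ds : List (Δ × Bool)), (∀ d' ∈ d :: ds, LP d') → ∀ r,
      DepOK J r → MV dep J md r (d :: ds) →
      BndA A J (dep d.1) (GM A E rb ok dep F Gd Bd q J Θ md ds true (dep d.1))
        (K ds (dep d.1) * δ ^ Nm md ds true) →
      (∀ d' ds', ds = d' :: ds' →
        BndC A J (dep d'.1) (GM A E rb ok dep F Gd Bd q J Θ md ds' false (dep d'.1))
          (K ds' (dep d'.1) * δ ^ Nm md ds' false)) →
      ∃ Fn : List B → ℝ≥0∞, (GM A E rb ok dep F Gd Bd q J Θ md (d :: ds) false r = fun p =>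
        GS A r (fun p' => ker A E J Θ false r p p' * Fn p')) ∧
        FC A J r Fn (V d.1 * P r * (K ds (dep d.1) * δ ^ Nm md (d :: ds) false)) := by
    intro d ds hlp r hr hmv ih1 ih2
    obtain ⟨hM, h3, hok, hleg⟩ := hlp d List.mem_cons_self
    by_cases hm : d.2 = true ∧ md = false
    · -- the leg is marked and effective
      have hmv' := hmv.1 hm.1
      rw [if_neg (by simp [hm.2])] at hmv'
      obtain ⟨hdp, hne⟩ := hmv'
      obtain ⟨d', ds', rfl⟩ : ∃ d' ds', ds = d' :: ds' := by
        cases ds with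
        | nil => exact absurd rfl hne
        | cons d' ds' => exact ⟨d', ds', rfl⟩
      obtain ⟨hM', -, -, hleg'⟩ := hlp d' (List.mem_cons_of_mem _ List.mem_cons_self)
      have hdok : DepOK J (dep d.1) := (hleg r hr).dok
      refine ⟨_, GM_mark_false A E rb ok dep F Gd Bd q J Θ md (d' :: ds') r ⟨hm.2, hm.1⟩, ?_⟩
      have hfr : ¬ (d'.2 = true ∧ md = true) := fun h => by
        have := h.2.symm.trans hm.2
        exact absurd this (by simp)
      rw [GM_free A E rb ok dep F Gd Bd q J Θ md ds' true (dep d.1) hfr, Bool.not_true]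
      have hfa := (hleg' (dep d.1) hdok).ac _ _ (ih2 d' ds' rfl)
      have h4 := hS2 (M d'.1) r (V d.1 * P r) _ d.1 _ hr hdok (hdeep _ hdp).1 (hdeep _ hdp).2
        h3 hok (hmb _ hdok hdp) hfa (hleg r hr).ca
      refine FC_mono h4 ?_
      have hN : Nm md (d :: d' :: ds') false = Nm md ds' false + 1 := by
        simp [Nm, hm.1, hm.2]
      rw [hN, hKc, pow_succ]
      calc V d.1 * P r * (2 * (M d'.1 : ℝ≥0∞) * δ * (V d'.1 * P (dep d.1) *
            (K ds' (dep d'.1) * δ ^ Nm md ds' false))) =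
            V d.1 * P r * (2 * (M d'.1 : ℝ≥0∞) * 1 * (V d'.1 * P (dep d.1)) * K ds' (dep d'.1) *
              (δ ^ Nm md ds' false * δ)) := by ring
        _ ≤ _ := by
            gcongr
            exact hL _
    · -- not effective
      refine ⟨_, GM_free A E rb ok dep F Gd Bd q J Θ md ds false r hm, ?_⟩
      have hN : Nm md (d :: ds) false = Nm md ds true := by
        simp only [Nm, Bool.not_false]
        rw [if_neg hm, add_zero]
      rw [hN]
      exact (hleg r hr).ca _ _ ih1
  -- the bounds along the chain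
  have key : ∀ (n : ℕ) (ds : List (Δ × Bool)), ds.length ≤ n → (∀ d ∈ ds, LP d) → ∀ r,
      DepOK J r → MV dep J md r ds →
      BndA A J r (GM A E rb ok dep F Gd Bd q J Θ md ds true r) (K ds r * δ ^ Nm md ds true) ∧
      BndC A J r (GM A E rb ok dep F Gd Bd q J Θ md ds false r)
        (K ds r * δ ^ Nm md ds false) := by
    intro n
    induction n with
    | zero =>
      intro ds hn _ r hr _
      obtain rfl := List.length_eq_zero_iff.1 (Nat.le_zero.1 hn)
      have h1 : K [] r * δ ^ Nm md ([] : List (Δ × Bool)) true = 1 := by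
        show (1 : ℝ≥0∞) * δ ^ 0 = 1
        rw [pow_zero, one_mul]
      have h2 : K [] r * δ ^ Nm md ([] : List (Δ × Bool)) false = 1 := h1
      rw [h1, h2, GM_nil, GM_nil]
      exact hBAS A hC hR J r hr
    | succ n ih =>
      intro ds hn hlp r hr hmv
      cases ds with
      | nil =>
        have h1 : K [] r * δ ^ Nm md ([] : List (Δ × Bool)) true = 1 := by
          show (1 : ℝ≥0∞) * δ ^ 0 = 1
          rw [pow_zero, one_mul]
        have h2 : K [] r * δ ^ Nm md ([] : List (Δ × Bool)) false = 1 := h1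
        rw [h1, h2, GM_nil, GM_nil]
        exact hBAS A hC hR J r hr
      | cons d ds =>
        have hlen : ds.length ≤ n := by
          simpa using hn
        obtain ⟨hM, h3, hok, hleg⟩ := hlp d List.mem_cons_self
        have hM1 : (1 : ℝ≥0∞) ≤ M d.1 := by exact_mod_cast hM
        have hlp' : ∀ d' ∈ ds, LP d' := fun d' hd' => hlp d' (List.mem_cons_of_mem _ hd')
        have ih' := ih ds hlen hlp' (dep d.1) (hleg r hr).dok hmv.2
        constructor
        · by_cases hm : d.2 = true ∧ md = true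
          · have hdp := hmv.1 hm.1
            rw [if_pos hm.2] at hdp
            rw [GM_mark_true A E rb ok dep F Gd Bd q J Θ md ds r ⟨hm.2, hm.1⟩]
            have h4 := hS1 (M d.1) r _ _ (hmb r hr hdp) ((hleg r hr).ac _ _ ih'.2)
            refine BndA_mono h4 ?_
            have hN : Nm md (d :: ds) true = Nm md ds false + 1 := by
              simp only [Nm, Bool.not_true]
              rw [if_pos hm]
            rw [hN, hKc, pow_succ]
            calc (M d.1 : ℝ≥0∞) * δ * (V d.1 * P r * (K ds (dep d.1) * δ ^ Nm md ds false)) =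
                  1 * M d.1 * 1 * (V d.1 * P r) * K ds (dep d.1) * (δ ^ Nm md ds false * δ) := by
                    ring
              _ ≤ _ := by
                  gcongr
                  · norm_num
                  · exact hL _
          · rw [GM_free A E rb ok dep F Gd Bd q J Θ md ds true r hm, Bool.not_true]
            have h4 := hSTPA A E hC hR J (M d.1) r Θ (L r) _ _ (hcs r hr).1
              ((hleg r hr).ac _ _ ih'.2)
            refine BndA_mono h4 ?_
            have hN : Nm md (d :: ds) true = Nm md ds false := by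
              simp only [Nm, Bool.not_true]
              rw [if_neg hm, add_zero]
            rw [hN, hKc]
            calc (M d.1 : ℝ≥0∞) * L r * (V d.1 * P r * (K ds (dep d.1) * δ ^ Nm md ds false)) =
                  1 * M d.1 * L r * (V d.1 * P r) * K ds (dep d.1) * δ ^ Nm md ds false := by ring
              _ ≤ _ := by
                  gcongr
                  norm_num
        · obtain ⟨Fn, hFn, hfc⟩ := stepC d ds hlp r hr hmv ih'.1 (by
            rintro d' ds' rfl
            have hd' := hlp d' (List.mem_cons_of_mem _ List.mem_cons_self)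
            refine (ih ds' ?_ (fun e he => hlp' e (List.mem_cons_of_mem _ he)) (dep d'.1)
              (hd'.2.2.2 0 h0).dok hmv.2.2).2
            simp only [List.length_cons] at hlen
            omega)
          rw [hFn]
          have h4 := hSTPC A E hC hR J r Θ (L r) _ _ (hcs r hr).2 hfc
          refine BndC_mono h4 ?_
          rw [hKc]
          calc 2 * L r * (V d.1 * P r * (K ds (dep d.1) * δ ^ Nm md (d :: ds) false)) =
                2 * 1 * L r * (V d.1 * P r) * K ds (dep d.1) * δ ^ Nm md (d :: ds) false := by ring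
            _ ≤ _ := by gcongr
  -- the end
  cases ds with
  | nil =>
    have h1 : ZM A E rb ok dep F Gd Bd q md [] 0 [] = 1 := by rw [ZM]
    rw [h1]
    simp only [List.map_nil, List.prod_nil, mul_one, List.filter_nil, List.length_nil, pow_zero,
      one_pow]
    exact one_le_pow₀ (hR.S_one _)
  | cons d ds =>
    have hlp : ∀ d' ∈ d :: ds, LP d' := hds
    obtain ⟨hM, h3, hok, hleg⟩ := hlp d List.mem_cons_self
    have hM1 : (1 : ℝ≥0∞) ≤ M d.1 := by exact_mod_cast hM
    have hlp' : ∀ d' ∈ ds, LP d' := fun d' hd' => hlp d' (List.mem_cons_of_mem _ hd')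
    have hb := key ds.length ds le_rfl hlp' (dep d.1) (hleg 0 h0).dok hmv.2
    obtain ⟨Fn, hFn, hfc⟩ := stepC d ds hlp 0 h0 hmv hb.1 (by
      rintro d' ds' rfl
      have hd' := hlp d' (List.mem_cons_of_mem _ List.mem_cons_self)
      exact (key ds'.length ds' le_rfl (fun e he => hlp' e (List.mem_cons_of_mem _ he)) (dep d'.1)
        (hd'.2.2.2 0 h0).dok hmv.2.2).2)
    have hsq := hSQM A E rb ok dep F Gd Bd q hC hE J Θ md hΘ hΘ' (d :: ds)
      (fun d' hd' => ⟨((hlp d' hd').2.2.2 0 h0).dok, ((hlp d' hd').2.2.2 0 h0).ht⟩) 0 [] h0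
      (Or.inl rfl)
    have hsl : sl A 0 (rb []) = [] := by simp [sl]
    rw [hsl] at hsq
    have hT : ∀ p, ¬ Tall A 0 p := fun p h => absurd h.1 (by norm_num)
    have htw : ∀ x p, tw A J Θ (Tall A 0 p) x = 1 := fun x p => by
      unfold tw
      rw [if_neg (hT p)]
    have hkA : ker A E J Θ true 0 [] [] ≤ 1 := by
      unfold ker
      rw [if_pos rfl, htw, max_self]
      exact iv_le _ _
    have hkC : ker A E J Θ false 0 [] [] ≤ 1 := by
      unfold ker
      rw [if_neg (by simp)]
      unfold kr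
      rw [htw, max_self, inv_one]
      exact iv_le _ _
    have hstp : Stp A 0 [] := Or.inl ⟨rfl, rfl⟩
    have hW : A.W [] ≠ 0 := by simp [Alph.W]
    have hfr : ¬ (d.2 = true ∧ md = true) := by
      rintro ⟨h1, h2⟩
      have h4 := hmv.1 h1
      rw [if_pos h2] at h4
      have h5 := (hdeep 0 h4).2
      omega
    have hgA : GM A E rb ok dep F Gd Bd q J Θ md (d :: ds) true 0 [] ≤
        V d.1 * (K ds (dep d.1) * δ ^ Nm md (d :: ds) true) * A.S (2 ^ J) * M d.1 := by
      have h1 : GM A E rb ok dep F Gd Bd q J Θ md (d :: ds) true 0 [] =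
          ker A E J Θ true 0 [] [] *
          RF A rb ok dep d.1 (GM A E rb ok dep F Gd Bd q J Θ md ds false (dep d.1)) [] := by
        rw [GM_free A E rb ok dep F Gd Bd q J Θ md ds true 0 hfr]
        simp only [GS, if_true, Bool.not_true]
      have hN : Nm md (d :: ds) true = Nm md ds false := by
        simp only [Nm, Bool.not_true]
        rw [if_neg hfr, add_zero]
      rw [h1, hN]
      obtain ⟨om, x, y, hom, hxy, hF⟩ := (hleg 0 h0).ac _ _ hb.2
      have h2 := hF [] hstp hW
      rw [hP0, mul_one] at h2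
      have h3 : ∑ e, y e * om e [] ≤ M d.1 := by
        calc ∑ e, y e * om e [] ≤ ∑ _e : Fin (M d.1), (1 : ℝ≥0∞) := by
              refine Finset.sum_le_sum fun e _ => ?_
              obtain ⟨-, h4, h5⟩ := hom e
              rcases h5 with ⟨h6, -⟩ | ⟨lo, -, h6, -⟩
              · have h7 := hxy e
                rw [h6, one_mul] at h7
                exact mul_le_one' h7 (h4 [])
              · by_cases h8 : om e [] = 0
                · rw [h8, mul_zero]
                  exact zero_le
                · exact absurd (h6 [] h8).1 (hT [])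
          _ = M d.1 := by simp
      calc ker A E J Θ true 0 [] [] *
            RF A rb ok dep d.1 (GM A E rb ok dep F Gd Bd q J Θ md ds false (dep d.1)) []
          ≤ 1 * (V d.1 * (K ds (dep d.1) * δ ^ Nm md ds false) * A.S (2 ^ J) * M d.1) := by
            refine mul_le_mul' hkA (h2.trans ?_)
            gcongr
        _ = _ := one_mul _
    have hgC : GM A E rb ok dep F Gd Bd q J Θ md (d :: ds) false 0 [] ≤
        V d.1 * (K ds (dep d.1) * δ ^ Nm md (d :: ds) false) * A.S (2 ^ J) * M d.1 := by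
      have h1 : GM A E rb ok dep F Gd Bd q J Θ md (d :: ds) false 0 [] =
          ker A E J Θ false 0 [] [] * Fn [] := by
        rw [hFn]
        simp only [GS, if_true]
      rw [h1]
      have h2 := hfc.1 [] hstp hW (hT [])
      rw [hP0, mul_one] at h2
      calc ker A E J Θ false 0 [] [] * Fn []
          ≤ 1 * (V d.1 * (K ds (dep d.1) * δ ^ Nm md (d :: ds) false) * A.S (2 ^ J)) :=
            mul_le_mul' hkC h2
        _ = V d.1 * (K ds (dep d.1) * δ ^ Nm md (d :: ds) false) * A.S (2 ^ J) * 1 := by ring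
        _ ≤ _ := by gcongr
    have hKle : K ds (dep d.1) ≤ L (dep d.1) * P (dep d.1) * (ds.map (fun d => 2 *
        (M d.1 : ℝ≥0∞) * (L (dep d.1) * P (dep d.1)) * V d.1)).prod :=
      Kf_le L P (fun d : Δ × Bool => V d.1) (fun d => M d.1) (fun d => dep d.1) hL hP ds _
    have hcnt := Nm_add md (d :: ds) true
    rw [Bool.not_true] at hcnt
    refine hsq.trans ((mul_le_mul' hgA hgC).trans ?_)
    rw [← hcnt, pow_add, List.map_cons, List.prod_cons]
    set Q := (ds.map (fun d => 2 * (M d.1 : ℝ≥0∞) * (L (dep d.1) * P (dep d.1)) * V d.1)).prod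
      with hQ
    have hone : V d.1 * K ds (dep d.1) * A.S (2 ^ J) * M d.1 ≤
        A.S (2 ^ J) * (2 * (M d.1 : ℝ≥0∞) * (L (dep d.1) * P (dep d.1)) * V d.1 * Q) := by
      calc V d.1 * K ds (dep d.1) * A.S (2 ^ J) * M d.1 ≤
            V d.1 * (L (dep d.1) * P (dep d.1) * Q) * A.S (2 ^ J) * M d.1 := by gcongr
        _ = A.S (2 ^ J) * (1 * (M d.1 : ℝ≥0∞) * (L (dep d.1) * P (dep d.1)) * V d.1 * Q) := by ring
        _ ≤ _ := by
            gcongr
            norm_num
    calc V d.1 * (K ds (dep d.1) * δ ^ Nm md (d :: ds) true) * A.S (2 ^ J) * M d.1 *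
          (V d.1 * (K ds (dep d.1) * δ ^ Nm md (d :: ds) false) * A.S (2 ^ J) * M d.1) =
          (V d.1 * K ds (dep d.1) * A.S (2 ^ J) * M d.1) ^ 2 *
            (δ ^ Nm md (d :: ds) true * δ ^ Nm md (d :: ds) false) := by ring
      _ ≤ _ := by gcongr

end Pool.Agent.Helper65.NSF
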